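import Pool.Agent.H564R3.NR.Defs

/-! Breadth first search: a monotone program with `N + 1` registers for reachability. -/

set_option autoImplicit false

namespace Pool.Agent.H564R3.NR

section

variable {N : ℕ}

/-- the instructions that follow the edge `e` -/
noncomputable def b_edge (e : Fin N × Fin N) : List (NInstr (Fin N × Fin N) (Option (Fin N))) :=
  [.load none e, .app none (fun a b => min a b) none (some e.1),
    .app (some e.2) (fun a b => max a b) (some e.2) none]

/-- the set of vertices found so far -/
def b_step (w : Fin N × Fin N → Bool) (R : Finset (Fin N)) (e : Fin N × Fin N) :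
    Finset (Fin N) :=
  if w e = true ∧ e.1 ∈ R then insert e.2 R else R

theorem b_run_edge (w : Fin N × Fin N → Bool) (R : Finset (Fin N)) (e : Fin N × Fin N)
    (s : Option (Fin N) → ℝ) (hs : ∀ x, s (some x) = if x ∈ R then 1 else 0) (x : Fin N) :
    (b_edge e).foldl (fun v I => I.run w v) s (some x) = if x ∈ b_step w R e then 1 else 0 := by
  simp only [b_edge, List.foldl_cons, List.foldl_nil, NInstr.run]
  unfold b_step
  by_cases hx : x = e.2
  · subst hx
    rw [Function.update_self, Function.update_self, Function.update_self,
      Function.update_of_ne (by simp), Function.update_of_ne (by simp),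
      Function.update_of_ne (by simp)]
    rw [hs, hs]
    by_cases h1 : w e = true <;> by_cases h2 : e.1 ∈ R <;> by_cases h3 : e.2 ∈ R <;>
      simp [h1, h2, h3]
  · rw [Function.update_of_ne (by simpa using hx), Function.update_of_ne (by simp),
      Function.update_of_ne (by simp), hs]
    by_cases h1 : w e = true ∧ e.1 ∈ R
    · rw [if_pos h1]
      simp [Finset.mem_insert, hx]
    · rw [if_neg h1]

theorem b_run_list (w : Fin N × Fin N → Bool) (L : List (Fin N × Fin N)) (R : Finset (Fin N))
    (s : Option (Fin N) → ℝ) (hs : ∀ x, s (some x) = if x ∈ R then 1 else 0) (x : Fin N) :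
    (L.flatMap b_edge).foldl (fun v I => I.run w v) s (some x) =
      if x ∈ L.foldl (b_step w) R then 1 else 0 := by
  induction L generalizing R s with
  | nil => exact hs x
  | cons e L ih =>
    rw [List.flatMap_cons, List.foldl_append, List.foldl_cons]
    exact ih _ _ (b_run_edge w R e s hs)

theorem b_step_sub (w : Fin N × Fin N → Bool) (R : Finset (Fin N)) (e : Fin N × Fin N) :
    R ⊆ b_step w R e := by
  unfold b_step
  split_ifs
  · exact Finset.subset_insert _ _
  · exact Finset.Subset.refl _

theorem b_fold_sub (w : Fin N × Fin N → Bool) (L : List (Fin N × Fin N)) (R : Finset (Fin N)) :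
    R ⊆ L.foldl (b_step w) R := by
  induction L generalizing R with
  | nil => exact Finset.Subset.refl _
  | cons e L ih => exact (b_step_sub w R e).trans (ih _)

theorem b_fold_mem (w : Fin N × Fin N → Bool) (L : List (Fin N × Fin N)) (R : Finset (Fin N))
    (e : Fin N × Fin N) (he : e ∈ L) (h1 : w e = true) (h2 : e.1 ∈ R) :
    e.2 ∈ L.foldl (b_step w) R := by
  induction L generalizing R with
  | nil => simp at he
  | cons a L ih =>
    rw [List.foldl_cons]
    rcases List.mem_cons.1 he with h | h
    · subst h
      refine b_fold_sub w L _ ?_
      unfold b_step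
      rw [if_pos ⟨h1, h2⟩]
      exact Finset.mem_insert_self _ _
    · exact ih _ h (b_step_sub w R a h2)

theorem b_fold_closed (w : Fin N × Fin N → Bool) (L : List (Fin N × Fin N)) (R : Finset (Fin N))
    (hR : ∀ e : Fin N × Fin N, w e = true → e.1 ∈ R → e.2 ∈ R) : L.foldl (b_step w) R = R := by
  induction L with
  | nil => rfl
  | cons a L ih =>
    rw [List.foldl_cons]
    have : b_step w R a = R := by
      unfold b_step
      split_ifs with h
      · exact Finset.insert_eq_of_mem (hR a h.1 h.2)
      · rfl
    rw [this, ih]

theorem b_fold_sound (w : Fin N × Fin N → Bool) (L : List (Fin N × Fin N)) (R : Finset (Fin N))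
    (P : Fin N → Prop) (hR : ∀ x ∈ R, P x) (hP : ∀ e : Fin N × Fin N, w e = true → P e.1 → P e.2) :
    ∀ x ∈ L.foldl (b_step w) R, P x := by
  induction L generalizing R with
  | nil => exact hR
  | cons a L ih =>
    rw [List.foldl_cons]
    refine ih _ ?_
    intro x hx
    unfold b_step at hx
    split_ifs at hx with h
    · rcases Finset.mem_insert.1 hx with h' | h'
      · rw [h']
        exact hP a h.1 (hR _ h.2)
      · exact hR x h'
    · exact hR x hx

/-- Breadth first search. -/
theorem bfs (hN : 2 ≤ N) : ∃ (p : List (NInstr (Fin N × Fin N) (Option (Fin N))))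
    (o : Option (Fin N)),
    (∀ (i : Option (Fin N)) (f : ℝ → ℝ → ℝ) (j l : Option (Fin N)), NInstr.app i f j l ∈ p →
      f = (fun a b => min a b) ∨ f = (fun a b => max a b) ∨ f = (fun _ _ => 1)) ∧
    NDecides (StConn hN) p o ∧ negs p = 0 ∧ p.length = 3 * N ^ 3 + 1 := by
  set P : List (Fin N × Fin N) := (Finset.univ : Finset (Fin N × Fin N)).toList with hP
  set L : List (Fin N × Fin N) := (List.replicate N P).flatten with hL
  set z : Fin N := ⟨0, by omega⟩ with hz
  refine ⟨NInstr.app (some z) (fun _ _ => 1) none none :: L.flatMap b_edge,
    some ⟨1, by omega⟩, ?_, ?_, ?_, ?_⟩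
  · intro i f j l h
    rcases List.mem_cons.1 h with h | h
    · right; right
      injection h
    · rw [List.mem_flatMap] at h
      obtain ⟨e, -, he⟩ := h
      simp only [b_edge, List.mem_cons, List.not_mem_nil, or_false] at he
      rcases he with he | he | he
      · exact absurd he (by simp)
      · left
        injection he
      · right; left
        injection he
  · intro w
    have hs : ∀ x : Fin N, Function.update (fun _ : Option (Fin N) => (0 : ℝ)) (some z) 1 (some x)
        = if x ∈ ({z} : Finset (Fin N)) then 1 else 0 := by
      intro x
      by_cases hx : x = z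
      · subst hx
        simp
      · rw [Function.update_of_ne (by simpa using hx)]
        simp [hx]
    have key : nexec w (NInstr.app (some z) (fun _ _ => 1) none none :: L.flatMap b_edge)
        (some ⟨1, by omega⟩) = if (⟨1, by omega⟩ : Fin N) ∈ L.foldl (b_step w) {z} then 1 else 0 := by
      unfold nexec
      rw [List.foldl_cons]
      exact b_run_list w L {z} _ hs _
    rw [key]
    have hsound : ∀ x ∈ L.foldl (b_step w) {z},
        Relation.ReflTransGen (fun u v : Fin N => w (u, v) = true) z x := by
      refine b_fold_sound w L {z} _ ?_ ?_
      · intro x hx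
        rw [Finset.mem_singleton.1 hx]
      · intro e he h
        exact h.tail he
    -- closedness after `N` rounds
    have hrounds : ∀ r : ℕ, r + 1 ≤ ((List.replicate r P).flatten.foldl (b_step w) {z}).card ∨
        ∀ e : Fin N × Fin N, w e = true →
          e.1 ∈ (List.replicate r P).flatten.foldl (b_step w) {z} →
          e.2 ∈ (List.replicate r P).flatten.foldl (b_step w) {z} := by
      intro r
      induction r with
      | zero => left; simp
      | succ r ih =>
        have h1 : (List.replicate (r + 1) P).flatten.foldl (b_step w) {z} =
            P.foldl (b_step w) ((List.replicate r P).flatten.foldl (b_step w) {z}) := by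
          rw [List.replicate_succ', List.flatten_append, List.foldl_append]
          simp
        rw [h1]
        set R := (List.replicate r P).flatten.foldl (b_step w) {z} with hR
        by_cases hc : ∀ e : Fin N × Fin N, w e = true → e.1 ∈ R → e.2 ∈ R
        · right
          rw [b_fold_closed w P R hc]
          exact hc
        · left
          rcases ih with ih | ih
          · push Not at hc
            obtain ⟨e, he, h2, h3⟩ := hc
            have h4 := b_fold_mem w P R e (by rw [hP]; simp) he h2
            have h5 : insert e.2 R ⊆ P.foldl (b_step w) R :=
              Finset.insert_subset h4 (b_fold_sub w P R)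
            have h6 := Finset.card_le_card h5
            rw [Finset.card_insert_of_notMem h3] at h6
            omega
          · exact absurd ih hc
    have hclosed : ∀ e : Fin N × Fin N, w e = true → e.1 ∈ L.foldl (b_step w) {z} →
        e.2 ∈ L.foldl (b_step w) {z} := by
      rcases hrounds N with h | h
      · have h2 : (L.foldl (b_step w) {z}).card ≤ N := by
          have := Finset.card_le_univ (L.foldl (b_step w) {z})
          simpa using this
        rw [← hL] at h
        omega
      · exact h
    have hcomplete : ∀ x, Relation.ReflTransGen (fun u v : Fin N => w (u, v) = true) z x →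
        x ∈ L.foldl (b_step w) {z} := by
      intro x hx
      induction hx with
      | refl => exact b_fold_sub w L {z} (Finset.mem_singleton_self z)
      | tail _ h ih => exact hclosed (_, _) h ih
    constructor
    · intro h
      rw [if_pos (hcomplete _ h)]
    · intro h
      rw [if_neg]
      intro h'
      exact h (hsound _ h')
  · unfold negs
    rw [List.countP_eq_zero]
    intro I hI
    rcases List.mem_cons.1 hI with h | h
    · subst h
      simp [NInstr.isNeg]
    · rw [List.mem_flatMap] at h
      obtain ⟨e, -, he⟩ := h
      simp only [b_edge, List.mem_cons, List.not_mem_nil, or_false] at he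
      rcases he with he | he | he <;> subst he <;> simp [NInstr.isNeg]
  · rw [List.length_cons, List.length_flatMap]
    have h1 : (L.map fun e => (b_edge e).length) = L.map fun _ => 3 := by
      apply List.map_congr_left
      intro e _
      simp [b_edge]
    rw [h1, List.map_const', List.sum_replicate, hL, List.length_flatten]
    simp only [List.map_replicate, List.sum_replicate, hP, Finset.length_toList, Finset.card_univ,
      Fintype.card_prod, Fintype.card_fin, smul_eq_mul]
    ring

end

end Pool.Agent.H564R3.NR
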