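import Pool.Agent.H564R3.NR.Vec

/-! Some block of the input has all tests frozen. -/

set_option autoImplicit false

namespace Pool.Agent.H564R3.NR

variable {ρ : Type} [DecidableEq ρ]

/-- there is a block and a background on which the tests are frozen for all inputs without the
property -/
theorem frozen_block {V : Type} (G : (V → Bool) → Prop) (hG : ¬ G fun _ => false) (q : ℕ)
    (p : List (NInstr (Fin q × V) ρ)) (hp : NIsMono p) (hq : 2 ^ negs p ≤ q) :
    ∃ (j : Fin q) (x : Fin q × V → Bool), (∀ v, x (j, v) = false) ∧
      (∀ i : Fin q, ¬ G fun v => x (i, v)) ∧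
      ∀ y : V → Bool, ¬ G y →
        vecs (fun a => if a.1 = j then y a.2 else x a) p (fun _ => 0) =
          vecs x p (fun _ => 0) := by
  by_contra hcon
  push Not at hcon
  have key : ∀ t ≤ q, ∃ x : Fin q × V → Bool, (∀ i : Fin q, t ≤ i.1 → ∀ v, x (i, v) = false) ∧
      (∀ i : Fin q, ¬ G fun v => x (i, v)) ∧ t ≤ rk (vecs x p (fun _ => 0)) := by
    intro t
    induction t with
    | zero => exact fun _ => ⟨fun _ => false, fun _ _ _ => rfl, fun _ => hG, Nat.zero_le _⟩
    | succ t ih =>
      intro ht
      obtain ⟨x, h1, h2, h3⟩ := ih (by omega)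
      obtain ⟨y, hy, hne⟩ := hcon ⟨t, by omega⟩ x (h1 ⟨t, by omega⟩ le_rfl) h2
      refine ⟨fun a => if a.1 = (⟨t, by omega⟩ : Fin q) then y a.2 else x a, ?_, ?_, ?_⟩
      · intro i hi v
        have hne' : i ≠ (⟨t, by omega⟩ : Fin q) := by
          intro h
          rw [h] at hi
          simp at hi
        simp only [if_neg hne']
        exact h1 i (by omega) v
      · intro i
        by_cases hi : i = (⟨t, by omega⟩ : Fin q)
        · simp only [if_pos hi]
          exact hy
        · simp only [if_neg hi]
          exact h2 i
      · have := vecs_mono p hp x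
          (fun a => if a.1 = (⟨t, by omega⟩ : Fin q) then y a.2 else x a) ?_
          (fun _ => 0) (fun _ => 0) (fun _ => le_rfl)
        · rcases this with h | h
          · exact absurd h.symm hne
          · omega
        · intro a ha
          by_cases hi : a.1 = (⟨t, by omega⟩ : Fin q)
          · have := h1 a.1 (by rw [hi]) a.2
            rw [Prod.mk.eta] at this
            rw [this] at ha
            exact absurd ha (by simp)
          · simp only [if_neg hi]
            exact ha
  obtain ⟨x, -, -, h⟩ := key q le_rfl
  have h2 := rk_lt (vecs x p (fun _ => 0))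
  rw [length_vecs] at h2
  omega

end Pool.Agent.H564R3.NR
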