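import Pool.Agent.H564R3.MR.Defs

/-!
Real straight-line programs with few negations.
-/

set_option autoImplicit false

namespace Pool.Agent.H564R3.NR

open Pool.Agent.H564R3.PW (Pos pairs Arc var)
open Pool.Agent.H564R3.MR (HasClique)

/-- An instruction of a real program with Boolean input variables `X` and registers `ρ`. -/
inductive NInstr (X ρ : Type) : Type
  /-- register `i` := input bit `x` -/
  | load (i : ρ) (x : X)
  /-- register `i` := `f` (register `j`) (register `l`) -/
  | app (i : ρ) (f : ℝ → ℝ → ℝ) (j l : ρ)
  /-- negation: register `i` := `1` if register `j` is less than `θ`, and `0` otherwise -/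
  | neg (i : ρ) (θ : ℝ) (j : ρ)

section Exec

variable {X ρ : Type} [DecidableEq ρ]

/-- Execution of one instruction: `w` are the input bits, `v` the contents of the registers. -/
noncomputable def NInstr.run (w : X → Bool) : NInstr X ρ → (ρ → ℝ) → ρ → ℝ
  | .load i x, v => Function.update v i (if w x = true then 1 else 0)
  | .app i f j l, v => Function.update v i (f (v j) (v l))
  | .neg i θ j, v => Function.update v i (if v j < θ then 1 else 0)

/-- The contents of the registers after the program `p`, started with all registers `0`. -/
noncomputable def nexec (w : X → Bool) (p : List (NInstr X ρ)) : ρ → ℝ :=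
  p.foldl (fun v I => I.run w v) (fun _ => 0)

/-- All operations of the program other than the negations are monotone functions. -/
def NIsMono (p : List (NInstr X ρ)) : Prop :=
  ∀ (i : ρ) (f : ℝ → ℝ → ℝ) (j l : ρ), NInstr.app i f j l ∈ p →
    ∀ a a' b b' : ℝ, a ≤ a' → b ≤ b' → f a b ≤ f a' b'

/-- Whether an instruction is a negation. -/
def NInstr.isNeg : NInstr X ρ → Bool
  | .load _ _ => false
  | .app _ _ _ _ => false
  | .neg _ _ _ => true

/-- The number of negations of the program. -/
def negs (p : List (NInstr X ρ)) : ℕ := p.countP fun I => I.isNeg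

/-- The program decides the property `F` of the input, with output `1` or `0` in register `o`. -/
def NDecides (F : (X → Bool) → Prop) (p : List (NInstr X ρ)) (o : ρ) : Prop :=
  ∀ w : X → Bool, (F w → nexec w p o = 1) ∧ (¬ F w → nexec w p o = 0)

end Exec

/-- At least one of `q` disjoint blocks of the input has the property `F`. -/
def OrCopies {V : Type} (q : ℕ) (F : (V → Bool) → Prop) (w : Fin q × V → Bool) : Prop :=
  ∃ j : Fin q, F fun v => w (j, v)

/-- In the directed graph with the adjacency matrix `w`, vertex `1` is reachable from vertex
`0`. -/
def StConn {N : ℕ} (hN : 2 ≤ N) (w : Fin N × Fin N → Bool) : Prop :=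
  Relation.ReflTransGen (fun u v : Fin N => w (u, v) = true) ⟨0, by omega⟩ ⟨1, by omega⟩

end Pool.Agent.H564R3.NR
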