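import Pool.Agent.H564R3.NR.Chain

/-!
Task C: freezing the negations (helper25).
-/

set_option autoImplicit false
set_option linter.unusedSectionVars false
set_option linter.unusedSimpArgs false

namespace Pool.Agent.H564R3.NR

open Pool.Agent.H564R3.PW (Pos pairs Arc var)
open Pool.Agent.H564R3.MR (HasClique)

section

variable {ρ : Type} [DecidableEq ρ] {V : Type} {q : ℕ}

/-- the frozen program -/
noncomputable def C_frz (j : Fin q) (x : Fin q × V → Bool) :
    List (NInstr (Fin q × V) ρ) → List Bool → List (MR.Instr V (Option ρ))
  | [], _ => []
  | .load i a :: p, s =>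
    (if a.1 = j then MR.Instr.load (some i) a.2
      else MR.Instr.app (some i) (fun _ _ => if x a = true then 1 else 0) (some i) (some i)) ::
      C_frz j x p s
  | .app i f k l :: p, s => MR.Instr.app (some i) f (some k) (some l) :: C_frz j x p s
  | .neg i θ k :: p, s =>
    if s.headD false = true then
      MR.Instr.app (some i) (fun _ _ => 0) (some i) (some i) :: C_frz j x p s.tail
    else
      MR.Instr.app none (fun a c => if 1 ≤ a then 1 else if θ ≤ c then 1 else 0) none (some k) ::
      MR.Instr.app (some i) (fun _ _ => 1) (some i) (some i) :: C_frz j x p s.tail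

theorem C_length (j : Fin q) (x : Fin q × V → Bool) (p : List (NInstr (Fin q × V) ρ))
    (s : List Bool) : (C_frz j x p s).length ≤ 2 * p.length := by
  induction p generalizing s with
  | nil => simp [C_frz]
  | cons I p ih =>
    cases I with
    | load i a =>
      simp only [C_frz, List.length_cons]
      have := ih s
      omega
    | app i f k l =>
      simp only [C_frz, List.length_cons]
      have := ih s
      omega
    | neg i θ k =>
      simp only [C_frz]
      have := ih s.tail
      split_ifs
      · simp only [List.length_cons]
        omega
      · simp only [List.length_cons]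
        omega

theorem C_mono (j : Fin q) (x : Fin q × V → Bool) (p : List (NInstr (Fin q × V) ρ))
    (hp : NIsMono p) (s : List Bool) : MR.IsMono (C_frz j x p s) := by
  induction p generalizing s with
  | nil =>
    intro i f k l h
    simp [C_frz] at h
  | cons I p ih =>
    have hp' : NIsMono p := fun i f k l h => hp i f k l (List.mem_cons_of_mem _ h)
    intro i' f' k' l' h a a' b b' ha hb
    cases I with
    | load i c =>
      simp only [C_frz, List.mem_cons] at h
      rcases h with h | h
      · split_ifs at h
        · simp only [MR.Instr.app.injEq] at h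
          obtain ⟨_, rfl, _, _⟩ := h
          exact le_rfl
        · simp only [MR.Instr.app.injEq] at h
          obtain ⟨_, rfl, _, _⟩ := h
          exact le_rfl
      · exact ih hp' s i' f' k' l' h a a' b b' ha hb
    | app i f k l =>
      simp only [C_frz, List.mem_cons] at h
      rcases h with h | h
      · simp only [MR.Instr.app.injEq] at h
        obtain ⟨_, rfl, _, _⟩ := h
        exact hp i f' k l List.mem_cons_self a a' b b' ha hb
      · exact ih hp' s i' f' k' l' h a a' b b' ha hb
    | neg i θ k =>
      simp only [C_frz] at h
      split_ifs at h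
      · simp only [List.mem_cons] at h
        rcases h with h | h
        · simp only [MR.Instr.app.injEq] at h
          obtain ⟨_, rfl, _, _⟩ := h
          exact le_rfl
        · exact ih hp' _ i' f' k' l' h a a' b b' ha hb
      · simp only [List.mem_cons] at h
        rcases h with h | h | h
        · simp only [MR.Instr.app.injEq] at h
          obtain ⟨_, rfl, _, _⟩ := h
          simp only
          split_ifs <;> linarith
        · simp only [MR.Instr.app.injEq] at h
          obtain ⟨_, rfl, _, _⟩ := h
          exact le_rfl
        · exact ih hp' _ i' f' k' l' h a a' b b' ha hb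

/-- the block `j` of `x` replaced by `w` -/
def C_rep (j : Fin q) (x : Fin q × V → Bool) (w : V → Bool) : Fin q × V → Bool :=
  fun a => if a.1 = j then w a.2 else x a

/-- simulation of a load -/
theorem C_load (j : Fin q) (x : Fin q × V → Bool) (w : V → Bool) (i : ρ) (a : Fin q × V)
    (v : ρ → ℝ) (v' : Option ρ → ℝ) (hv : ∀ i, v' (some i) = v i) :
    (∀ i', (if a.1 = j then MR.Instr.load (some i) a.2
      else MR.Instr.app (some i) (fun _ _ => if x a = true then 1 else 0) (some i)
        (some i) : MR.Instr V (Option ρ)).run w v' (some i') =
      (NInstr.load i a).run (C_rep j x w) v i') ∧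
    (if a.1 = j then MR.Instr.load (some i) a.2
      else MR.Instr.app (some i) (fun _ _ => if x a = true then 1 else 0) (some i)
        (some i) : MR.Instr V (Option ρ)).run w v' none = v' none := by
  constructor
  · intro i'
    by_cases ha : a.1 = j
    · rw [if_pos ha]
      simp only [MR.Instr.run, NInstr.run, C_rep, if_pos ha, Function.update_apply,
        Option.some.injEq, hv]
    · rw [if_neg ha]
      simp only [MR.Instr.run, NInstr.run, C_rep, if_neg ha, Function.update_apply,
        Option.some.injEq, hv]
  · by_cases ha : a.1 = j
    · rw [if_pos ha]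
      simp [MR.Instr.run, Function.update_apply]
    · rw [if_neg ha]
      simp [MR.Instr.run, Function.update_apply]

/-- one step of the simulation of an application -/
theorem C_app (w : V → Bool) (X : Fin q × V → Bool) (i : ρ) (f : ℝ → ℝ → ℝ) (k l : ρ)
    (v : ρ → ℝ) (v' : Option ρ → ℝ) (hv : ∀ i, v' (some i) = v i) :
    (∀ i', (MR.Instr.app (some i) f (some k) (some l) : MR.Instr V (Option ρ)).run w v' (some i') =
      (NInstr.app i f k l : NInstr (Fin q × V) ρ).run X v i') ∧
    (MR.Instr.app (some i) f (some k) (some l) : MR.Instr V (Option ρ)).run w v' none =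
      v' none := by
  constructor
  · intro i'
    simp only [MR.Instr.run, NInstr.run, Function.update_apply, Option.some.injEq, hv]
  · simp [MR.Instr.run, Function.update_apply]

/-- constants -/
theorem C_const (w : V → Bool) (i : ρ) (c : ℝ)
    (v : ρ → ℝ) (v' : Option ρ → ℝ) (hv : ∀ i, v' (some i) = v i) :
    (∀ i', (MR.Instr.app (some i) (fun _ _ => c) (some i) (some i) :
      MR.Instr V (Option ρ)).run w v' (some i') = Function.update v i c i') ∧
    (MR.Instr.app (some i) (fun _ _ => c) (some i) (some i) :
      MR.Instr V (Option ρ)).run w v' none = v' none := by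
  constructor
  · intro i'
    simp only [MR.Instr.run, Function.update_apply, Option.some.injEq, hv]
  · simp [MR.Instr.run, Function.update_apply]

/-- the accumulator -/
theorem C_acc (w : V → Bool) (f : ℝ → ℝ → ℝ) (k : ρ) (v' : Option ρ → ℝ) :
    (∀ i', (MR.Instr.app none f none (some k) :
      MR.Instr V (Option ρ)).run w v' (some i') = v' (some i')) ∧
    (MR.Instr.app none f none (some k) :
      MR.Instr V (Option ρ)).run w v' none = f (v' none) (v' (some k)) := by
  constructor
  · intro i'
    simp [MR.Instr.run, Function.update_apply]
  · simp [MR.Instr.run, Function.update_apply]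

/-- agreement of all tests -/
theorem C_agree (j : Fin q) (x : Fin q × V → Bool) (w : V → Bool)
    (p : List (NInstr (Fin q × V) ρ)) (v : ρ → ℝ) (v' : Option ρ → ℝ)
    (hv : ∀ i, v' (some i) = v i) (h0 : v' none = 0) :
    (∀ i, (C_frz j x p (vecs (C_rep j x w) p v)).foldl (fun v I => I.run w v) v' (some i) =
      p.foldl (fun v I => I.run (C_rep j x w) v) v i) ∧
    (C_frz j x p (vecs (C_rep j x w) p v)).foldl (fun v I => I.run w v) v' none = 0 := by
  induction p generalizing v v' with
  | nil => exact ⟨hv, h0⟩
  | cons I p ih =>
    cases I with
    | load i a =>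
      obtain ⟨h1, h2⟩ := C_load j x w i a v v' hv
      exact ih _ _ h1 (h2.trans h0)
    | app i f k l =>
      obtain ⟨h1, h2⟩ := C_app w (C_rep j x w) i f k l v v' hv
      exact ih _ _ h1 (h2.trans h0)
    | neg i θ k =>
      by_cases hb : θ ≤ v k
      · have h3 : vecs (C_rep j x w) (NInstr.neg i θ k :: p) v =
            true :: vecs (C_rep j x w) p ((NInstr.neg i θ k).run (C_rep j x w) v) := by
          simp [vecs, hb]
        rw [h3]
        simp only [C_frz, List.headD_cons, List.tail_cons, if_true, List.foldl_cons]
        obtain ⟨h1, h2⟩ := C_const w i 0 v v' hv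
        refine ih _ _ ?_ (h2.trans h0)
        intro i'
        rw [h1 i']
        simp only [NInstr.run]
        rw [if_neg (not_lt.2 hb)]
      · have h3 : vecs (C_rep j x w) (NInstr.neg i θ k :: p) v =
            false :: vecs (C_rep j x w) p ((NInstr.neg i θ k).run (C_rep j x w) v) := by
          simp [vecs, hb]
        rw [h3]
        simp only [C_frz, List.headD_cons, List.tail_cons, if_false, List.foldl_cons,
          Bool.false_eq_true]
        obtain ⟨h4, h5⟩ := C_acc w (fun a c => if 1 ≤ a then 1 else if θ ≤ c then 1 else 0) k v'
        obtain ⟨h1, h2⟩ := C_const w i 1 v _ (fun i' => (h4 i').trans (hv i'))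
        refine ih _ _ ?_ ?_
        · intro i'
          rw [h1 i']
          simp only [NInstr.run]
          rw [if_pos (not_le.1 hb)]
        · rw [h2, h5, h0, hv k, if_neg (by norm_num), if_neg hb]

/-- the accumulator stays `1` -/
theorem C_stay (j : Fin q) (x : Fin q × V → Bool) (w : V → Bool)
    (p : List (NInstr (Fin q × V) ρ)) (s : List Bool) (v' : Option ρ → ℝ) (h0 : v' none = 1) :
    (C_frz j x p s).foldl (fun v I => I.run w v) v' none = 1 := by
  induction p generalizing s v' with
  | nil => exact h0
  | cons I p ih =>
    cases I with
    | load i a =>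
      exact ih _ _ ((C_load j x w i a (fun i => v' (some i)) v' (fun _ => rfl)).2.trans h0)
    | app i f k l =>
      exact ih _ _
        ((C_app w (C_rep j x w) i f k l (fun i => v' (some i)) v' (fun _ => rfl)).2.trans h0)
    | neg i θ k =>
      simp only [C_frz]
      split_ifs
      · simp only [List.foldl_cons]
        exact ih _ _ ((C_const w i 0 (fun i => v' (some i)) v' (fun _ => rfl)).2.trans h0)
      · simp only [List.foldl_cons]
        refine ih _ _ ?_
        rw [(C_const w i 1 (fun i => _) _ (fun _ => rfl)).2, (C_acc w _ k v').2, h0,
          if_pos (le_refl 1)]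

/-- a disagreement -/
theorem C_diff (j : Fin q) (x : Fin q × V → Bool) (hx : ∀ v, x (j, v) = false) (w : V → Bool)
    (p : List (NInstr (Fin q × V) ρ)) (hp : NIsMono p) (u v : ρ → ℝ) (v' : Option ρ → ℝ)
    (huv : ∀ i, u i ≤ v i) (hv : ∀ i, v' (some i) = v i) (h0 : v' none = 0)
    (hne : vecs (C_rep j x w) p v ≠ vecs x p u) :
    (C_frz j x p (vecs x p u)).foldl (fun v I => I.run w v) v' none = 1 := by
  induction p generalizing u v v' with
  | nil => exact absurd rfl hne
  | cons I p ih =>
    have hp' : NIsMono p := fun i f k l h => hp i f k l (List.mem_cons_of_mem _ h)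
    cases I with
    | load i a =>
      obtain ⟨h1, h2⟩ := C_load j x w i a v v' hv
      refine ih hp' _ _ _ ?_ h1 (h2.trans h0) hne
      intro i'
      simp only [NInstr.run, Function.update_apply]
      split_ifs with h3 h4 h5 h5
      · exact le_rfl
      · exfalso
        apply h5
        unfold C_rep
        split_ifs with h6
        · have := hx a.2
          rw [← h6] at this
          rw [this] at h4
          exact absurd h4 (by simp)
        · exact h4
      · norm_num
      · exact le_rfl
      · exact huv i'
    | app i f k l =>
      obtain ⟨h1, h2⟩ := C_app w (C_rep j x w) i f k l v v' hv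
      refine ih hp' _ _ _ ?_ h1 (h2.trans h0) hne
      intro i'
      simp only [NInstr.run, Function.update_apply]
      split_ifs
      · exact hp i f k l List.mem_cons_self _ _ _ _ (huv k) (huv l)
      · exact huv i'
    | neg i θ k =>
      by_cases hb : θ ≤ u k
      · have hb' : θ ≤ v k := hb.trans (huv k)
        have h3 : vecs x (NInstr.neg i θ k :: p) u =
            true :: vecs x p ((NInstr.neg i θ k).run x u) := by
          simp [vecs, hb]
        have h3' : vecs (C_rep j x w) (NInstr.neg i θ k :: p) v =
            true :: vecs (C_rep j x w) p ((NInstr.neg i θ k).run (C_rep j x w) v) := by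
          simp [vecs, hb']
        rw [h3, h3'] at hne
        rw [h3]
        simp only [C_frz, List.headD_cons, List.tail_cons, if_true, List.foldl_cons]
        obtain ⟨h1, h2⟩ := C_const w i 0 v v' hv
        refine ih hp' _ ((NInstr.neg i θ k).run (C_rep j x w) v) _ ?_ ?_ (h2.trans h0) ?_
        · intro i'
          simp only [NInstr.run, Function.update_apply]
          rw [if_neg (not_lt.2 hb), if_neg (not_lt.2 hb')]
          split_ifs
          · exact le_rfl
          · exact huv i'
        · intro i'
          rw [h1 i']
          simp only [NInstr.run]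
          rw [if_neg (not_lt.2 hb')]
        · intro h
          exact hne (by rw [h])
      · have h3 : vecs x (NInstr.neg i θ k :: p) u =
            false :: vecs x p ((NInstr.neg i θ k).run x u) := by
          simp [vecs, hb]
        obtain ⟨h4, h5⟩ := C_acc w (fun a c => if 1 ≤ a then 1 else if θ ≤ c then 1 else 0) k v'
        by_cases hb' : θ ≤ v k
        · rw [h3]
          simp only [C_frz, List.headD_cons, List.tail_cons, if_false, List.foldl_cons,
            Bool.false_eq_true]
          apply C_stay
          rw [(C_const w i 1 (fun i => _) _ (fun _ => rfl)).2, h5, h0, hv k,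
            if_neg (by norm_num), if_pos hb']
        · have h3' : vecs (C_rep j x w) (NInstr.neg i θ k :: p) v =
              false :: vecs (C_rep j x w) p ((NInstr.neg i θ k).run (C_rep j x w) v) := by
            simp [vecs, hb']
          rw [h3, h3'] at hne
          rw [h3]
          simp only [C_frz, List.headD_cons, List.tail_cons, if_false, List.foldl_cons,
            Bool.false_eq_true]
          obtain ⟨h1, h2⟩ := C_const w i 1 v _ (fun i' => (h4 i').trans (hv i'))
          refine ih hp' _ ((NInstr.neg i θ k).run (C_rep j x w) v) _ ?_ ?_ ?_ ?_
          · intro i'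
            simp only [NInstr.run, Function.update_apply]
            rw [if_pos (not_le.1 hb), if_pos (not_le.1 hb')]
            split_ifs
            · exact le_rfl
            · exact huv i'
          · intro i'
            rw [h1 i']
            simp only [NInstr.run]
            rw [if_pos (not_le.1 hb')]
          · rw [h2, h5, h0, hv k, if_neg (by norm_num), if_neg hb']
          · intro h
            exact hne (by rw [h])

theorem freeze {V : Type} (G : (V → Bool) → Prop) (hG : ¬ G fun _ => false) (q : ℕ)
    (p : List (NInstr (Fin q × V) ρ)) (hp : NIsMono p) (o : ρ)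
    (ho : NDecides (OrCopies q G) p o) (hq : 2 ^ negs p ≤ q) :
    ∃ p' : List (MR.Instr V (Option ρ)), MR.IsMono p' ∧
      (∀ w : V → Bool, (G w → MR.exec w p' none = 1) ∧ (¬ G w → MR.exec w p' none = 0)) ∧
      p'.length ≤ 2 * p.length + 1 := by
  obtain ⟨j, x, hx, hxG, hfr⟩ := frozen_block G hG q p hp hq
  set s := vecs x p (fun _ => 0) with hs
  let fin : MR.Instr V (Option ρ) :=
    MR.Instr.app none (fun a c => if 1 ≤ a ∨ 1 ≤ c then 1 else 0) none (some o)
  refine ⟨C_frz j x p s ++ [fin], ?_, ?_, ?_⟩
  · intro i f k l h a a' b b' ha hb
    rcases List.mem_append.1 h with h | h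
    · exact C_mono j x p hp s i f k l h a a' b b' ha hb
    · simp only [fin, List.mem_singleton, MR.Instr.app.injEq] at h
      obtain ⟨_, rfl, _, _⟩ := h
      simp only
      split_ifs with h1 h2 h2
      · exact le_rfl
      · exfalso
        apply h2
        rcases h1 with h1 | h1
        · exact Or.inl (h1.trans ha)
        · exact Or.inr (h1.trans hb)
      · norm_num
      · exact le_rfl
  · intro w
    have hex : MR.exec w (C_frz j x p s ++ [fin]) none =
        if 1 ≤ (C_frz j x p s).foldl (fun v I => I.run w v) (fun _ => 0) none ∨
          1 ≤ (C_frz j x p s).foldl (fun v I => I.run w v) (fun _ => 0) (some o) then 1 else 0 := by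
      unfold MR.exec
      rw [List.foldl_append]
      simp only [List.foldl_cons, List.foldl_nil]
      exact (C_acc w (fun a c => if 1 ≤ a ∨ 1 ≤ c then 1 else 0) o _).2
    rw [hex]
    have hor : OrCopies q G (C_rep j x w) ↔ G w := by
      constructor
      · rintro ⟨i, hi⟩
        by_cases hij : i = j
        · subst hij
          have : (fun v => C_rep i x w (i, v)) = w := by
            funext v
            simp [C_rep]
          rw [this] at hi
          exact hi
        · exfalso
          have : (fun v => C_rep j x w (i, v)) = fun v => x (i, v) := by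
            funext v
            simp [C_rep, hij]
          rw [this] at hi
          exact hxG i hi
      · intro hw
        refine ⟨j, ?_⟩
        have : (fun v => C_rep j x w (j, v)) = w := by
          funext v
          simp [C_rep]
        rw [this]
        exact hw
    have hagree : vecs (C_rep j x w) p (fun _ => 0) = s →
        (C_frz j x p s).foldl (fun v I => I.run w v) (fun _ => 0) (some o) =
          nexec (C_rep j x w) p o ∧
        (C_frz j x p s).foldl (fun v I => I.run w v) (fun _ => 0) none = 0 := by
      intro h
      have := C_agree j x w p (fun _ => 0) (fun _ => 0) (fun _ => rfl) rfl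
      rw [h] at this
      exact ⟨this.1 o, this.2⟩
    constructor
    · intro hw
      by_cases hve : vecs (C_rep j x w) p (fun _ => 0) = s
      · obtain ⟨h1, _⟩ := hagree hve
        rw [h1, (ho (C_rep j x w)).1 (hor.2 hw)]
        rw [if_pos (Or.inr le_rfl)]
      · have h1 := C_diff j x hx w p hp (fun _ => 0) (fun _ => 0) (fun _ => 0) (fun _ => le_rfl)
          (fun _ => rfl) rfl hve
        rw [← hs] at h1
        rw [h1, if_pos (Or.inl le_rfl)]
    · intro hw
      obtain ⟨h1, h2⟩ := hagree (hfr w hw)
      rw [h1, h2, (ho (C_rep j x w)).2 (fun h => hw (hor.1 h))]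
      rw [if_neg (by norm_num)]
  · rw [List.length_append, List.length_singleton]
    have := C_length j x p s
    omega

end

end Pool.Agent.H564R3.NR
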