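import Pool.Agent.H564R3.NR.Defs

/-!
Task H: choice of parameters for the function family.
-/

set_option autoImplicit false

namespace Pool.Agent.H564R3.NR

theorem num_f (c g h n : ℕ) (hc : 1 ≤ c) (hg : 1 ≤ g) (hh : 1 ≤ h) (hn : 1 ≤ n) :
    ∃ m₀ : ℕ, ∀ m ≥ m₀, ∀ N : ℕ, N = m ^ (2 * h) * (((2 * h + 3) * c + 2) * n * m) ^ 2 →
      (∀ t : ℕ, (2 ^ t) ^ h * N ≤ N ^ h → 2 ^ t ≤ m ^ (2 * h)) ∧
      (∀ T : ℕ, T ≤ N ^ g → 2 * T + 1 ≤ m ^ ((2 * h + 3) * g + 1)) ∧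
      (∀ S : ℕ, m ^ (((2 * h + 3) * c + 2) * ((2 * h + 3) * g + 1)) ≤
        m * (S + 1) ^ ((2 * h + 3) * g + 1) → N ^ c < S) := by
  set K : ℕ := ((2 * h + 3) * c + 2) * n with hK
  have hK1 : 1 ≤ K := by
    rw [hK]
    exact Nat.one_le_iff_ne_zero.2 (Nat.mul_ne_zero (by omega) (by omega))
  refine ⟨3 + K ^ 2 + K ^ h, ?_⟩
  intro m hm N hN
  have hm3 : 3 ≤ m := by omega
  have hmK2 : K ^ 2 ≤ m := by omega
  have hmKh : K ^ h ≤ m := by omega
  have hm0 : 0 < m := by omega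
  have hNK : N = K ^ 2 * m ^ (2 * h + 2) := by rw [hN]; ring
  have hN3 : N ≤ m ^ (2 * h + 3) := by
    rw [hNK, pow_succ m (2 * h + 2), mul_comm]
    exact Nat.mul_le_mul_left _ hmK2
  refine ⟨?_, ?_, ?_⟩
  · intro t ht
    by_contra hcon
    push Not at hcon
    have h1 : (m ^ (2 * h)) ^ h < (2 ^ t) ^ h := Nat.pow_lt_pow_left hcon (by omega)
    have hNpos : 0 < N := by
      rw [hNK]; positivity
    have h2 : (m ^ (2 * h)) ^ h * N < (2 ^ t) ^ h * N := Nat.mul_lt_mul_of_pos_right h1 hNpos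
    have h3 : N ^ h ≤ (m ^ (2 * h)) ^ h * N := by
      calc N ^ h = (K ^ h) ^ 2 * m ^ ((2 * h + 2) * h) := by rw [hNK]; ring_nf
        _ ≤ m ^ 2 * m ^ ((2 * h + 2) * h) := Nat.mul_le_mul_right _ (Nat.pow_le_pow_left hmKh 2)
        _ = 1 * ((m ^ (2 * h)) ^ h * m ^ (2 * h + 2)) := by ring
        _ ≤ K ^ 2 * ((m ^ (2 * h)) ^ h * m ^ (2 * h + 2)) :=
            Nat.mul_le_mul_right _ (Nat.one_le_pow _ _ hK1)
        _ = (m ^ (2 * h)) ^ h * N := by rw [hNK]; ring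
    exact absurd (h2.trans_le ht) (not_lt.2 h3)
  · intro T hT
    have h1 : N ^ g ≤ m ^ ((2 * h + 3) * g) := by
      rw [pow_mul]
      exact Nat.pow_le_pow_left hN3 g
    have h2 : 1 ≤ m ^ ((2 * h + 3) * g) := Nat.one_le_pow _ _ hm0
    have h3 : 3 * m ^ ((2 * h + 3) * g) ≤ m ^ ((2 * h + 3) * g + 1) := by
      rw [pow_succ, mul_comm]
      exact Nat.mul_le_mul_left _ hm3
    omega
  · intro S hS
    by_contra hcon
    push Not at hcon
    have h1 : N ^ c ≤ m ^ ((2 * h + 3) * c) := by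
      rw [pow_mul]
      exact Nat.pow_le_pow_left hN3 c
    have h2 : 1 ≤ m ^ ((2 * h + 3) * c) := Nat.one_le_pow _ _ hm0
    have h3 : 3 * m ^ ((2 * h + 3) * c) ≤ m ^ ((2 * h + 3) * c + 1) := by
      rw [pow_succ, mul_comm]
      exact Nat.mul_le_mul_left _ hm3
    have h4 : S + 1 ≤ m ^ ((2 * h + 3) * c + 1) := by omega
    have h5 : (S + 1) ^ ((2 * h + 3) * g + 1) ≤
        m ^ (((2 * h + 3) * c + 1) * ((2 * h + 3) * g + 1)) := by
      rw [pow_mul]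
      exact Nat.pow_le_pow_left h4 _
    have h6 : m * (S + 1) ^ ((2 * h + 3) * g + 1) ≤
        m ^ (((2 * h + 3) * c + 1) * ((2 * h + 3) * g + 1) + 1) := by
      rw [pow_succ, mul_comm m]
      exact Nat.mul_le_mul_right _ h5
    have h7 : m ^ (((2 * h + 3) * c + 1) * ((2 * h + 3) * g + 1) + 1) <
        m ^ (((2 * h + 3) * c + 2) * ((2 * h + 3) * g + 1)) := by
      apply Nat.pow_lt_pow_right (by omega)
      have h8 : ((2 * h + 3) * c + 2) * ((2 * h + 3) * g + 1) =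
          ((2 * h + 3) * c + 1) * ((2 * h + 3) * g + 1) + ((2 * h + 3) * g + 1) := by ring
      rw [h8]
      have h9 : 1 ≤ (2 * h + 3) * g := Nat.one_le_iff_ne_zero.2 (Nat.mul_ne_zero (by omega) (by omega))
      omega
    exact absurd (hS.trans h6) (not_le.2 h7)

end Pool.Agent.H564R3.NR
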