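import Pool.Agent.H564R3.NR.Defs

/-! Task F: numerical lemma for reachability. -/

set_option autoImplicit false

namespace Pool.Agent.H564R3.NR

theorem num_st (g n : ℕ) (hg : 1 ≤ g) (hn : 1 ≤ n) (m₀ : ℕ) : ∃ N₀ : ℕ, ∀ N ≥ N₀, ∀ q S T : ℕ,
    1 ≤ q → 1 ≤ S → T ≤ N ^ g →
    (∀ m ≥ m₀, q * n * m + 2 ≤ N → 2 * T + 1 ≤ m ^ (g ^ 2 + 1) →
      m ^ (g ^ 2 + 1) ≤ m * (S + 1) ^ (g ^ 2 + 1)) →
    N ^ g ≤ N * ((S + 1) * q) ^ g := by
  obtain ⟨k, rfl⟩ : ∃ k, g = k + 1 := ⟨g - 1, by omega⟩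
  set G : ℕ := (k + 1) ^ 2 + 1 with hG
  set M0 : ℕ := max m₀ (3 * (4 * n) ^ ((k + 1) ^ 2)) with hM0
  have h4n : 1 ≤ 4 * n := by omega
  have hM01 : 1 ≤ M0 := by
    have h1 : 1 ≤ (4 * n) ^ ((k + 1) ^ 2) := Nat.one_le_pow _ _ (by omega)
    have h2 : 3 * (4 * n) ^ ((k + 1) ^ 2) ≤ M0 := le_max_right _ _
    omega
  refine ⟨max 2 (max ((n * (M0 + 1)) ^ (k + 1)) ((4 * n) ^ ((k + 1) * G))), ?_⟩
  intro N hN q S T hq hS hT hyp
  have hN2 : 2 ≤ N := le_trans (le_max_left _ _) hN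
  have hNa : (n * (M0 + 1)) ^ (k + 1) ≤ N :=
    le_trans (le_trans (le_max_left _ _) (le_max_right _ _)) hN
  have hNb : (4 * n) ^ ((k + 1) * G) ≤ N :=
    le_trans (le_trans (le_max_right _ _) (le_max_right _ _)) hN
  have hNpos : 0 < N := by omega
  -- reduce to `N ^ k ≤ ((S + 1) * q) ^ (k + 1)`
  suffices hmain : N ^ k ≤ ((S + 1) * q) ^ (k + 1) by
    calc N ^ (k + 1) = N * N ^ k := by ring
      _ ≤ N * ((S + 1) * q) ^ (k + 1) := Nat.mul_le_mul_left _ hmain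
  by_cases hA : N ^ k ≤ q ^ (k + 1)
  · refine le_trans hA (Nat.pow_le_pow_left ?_ _)
    nlinarith
  have hB : q ^ (k + 1) < N ^ k := not_le.mp hA
  have hqpos : 0 < q ^ (k + 1) := by positivity
  have hqn : 0 < q * n := by positivity
  set m : ℕ := (N - 2) / (q * n) with hm
  have hm1 : q * n * m ≤ N - 2 := by
    have := Nat.div_mul_le_self (N - 2) (q * n)
    rw [hm]; rw [mul_comm]; exact this
  have hm1' : q * n * m + 2 ≤ N := by omega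
  have hm2 : N - 2 < q * n * (m + 1) := by
    have := Nat.lt_div_mul_add (a := N - 2) hqn
    rw [hm]; nlinarith
  -- `m` is large
  have hmM : M0 ≤ m := by
    by_contra hlt
    have hlt' : m + 1 ≤ M0 := by omega
    have h1 : N ≤ q * (n * (M0 + 1)) := by
      have h2 : q * n * (m + 1) ≤ q * n * M0 := Nat.mul_le_mul_left _ hlt'
      have h3 : q * (n * (M0 + 1)) = q * n * M0 + q * n := by ring
      omega
    have h2 : N ^ (k + 1) ≤ q ^ (k + 1) * (n * (M0 + 1)) ^ (k + 1) := by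
      rw [← mul_pow]; exact Nat.pow_le_pow_left h1 _
    have hpos : 0 < (n * (M0 + 1)) ^ (k + 1) := by positivity
    have h3 : q ^ (k + 1) * (n * (M0 + 1)) ^ (k + 1) < N ^ k * (n * (M0 + 1)) ^ (k + 1) :=
      Nat.mul_lt_mul_of_pos_right hB hpos
    have h4 : N ^ k * (n * (M0 + 1)) ^ (k + 1) ≤ N ^ k * N := Nat.mul_le_mul_left _ hNa
    have h5 : N ^ (k + 1) = N ^ k * N := pow_succ _ _
    omega
  have hm_pos : 1 ≤ m := le_trans hM01 hmM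
  have hm0 : m₀ ≤ m := le_trans (le_max_left _ _) hmM
  have hm3 : 3 * (4 * n) ^ ((k + 1) ^ 2) ≤ m := le_trans (le_max_right _ _) hmM
  have hN4 : N ≤ 4 * n * m * q := by
    have h1 : q * n * (m + 1) = q * n * m + q * n := by ring
    have h2 : q * n ≤ q * n * m := Nat.le_mul_of_pos_right _ hm_pos
    have h3 : 4 * n * m * q = 4 * (q * n * m) := by ring
    omega
  -- `N < (4 n m)^(k+1)`
  have hNlt : N < (4 * n * m) ^ (k + 1) := by
    by_contra hge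
    have hge' : (4 * n * m) ^ (k + 1) ≤ N := not_lt.mp hge
    have h1 : N ^ (k + 1) ≤ (4 * n * m) ^ (k + 1) * q ^ (k + 1) := by
      rw [← mul_pow]; exact Nat.pow_le_pow_left hN4 _
    have h2 : (4 * n * m) ^ (k + 1) * q ^ (k + 1) ≤ N * q ^ (k + 1) :=
      Nat.mul_le_mul_right _ hge'
    have h3 : N * q ^ (k + 1) < N * N ^ k := Nat.mul_lt_mul_of_pos_left hB hNpos
    have h4 : N ^ (k + 1) = N * N ^ k := by ring
    omega
  have hTm : 2 * T + 1 ≤ m ^ G := by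
    have h1 : N ^ (k + 1) ≤ (4 * n * m) ^ ((k + 1) ^ 2) := by
      calc N ^ (k + 1) ≤ ((4 * n * m) ^ (k + 1)) ^ (k + 1) := Nat.pow_le_pow_left hNlt.le _
        _ = (4 * n * m) ^ ((k + 1) ^ 2) := by rw [← pow_mul, sq]
    have h2 : 1 ≤ N ^ (k + 1) := Nat.one_le_pow _ _ hNpos
    calc 2 * T + 1 ≤ 3 * N ^ (k + 1) := by omega
      _ ≤ 3 * (4 * n * m) ^ ((k + 1) ^ 2) := Nat.mul_le_mul_left _ h1
      _ = 3 * (4 * n) ^ ((k + 1) ^ 2) * m ^ ((k + 1) ^ 2) := by rw [mul_pow]; ring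
      _ ≤ m * m ^ ((k + 1) ^ 2) := Nat.mul_le_mul_right _ hm3
      _ = m ^ G := by rw [hG, pow_succ]; ring
  have hkey := hyp m hm0 hm1' hTm
  have hmN : m ≤ N := by
    have : m ≤ q * n * m := Nat.le_mul_of_pos_left _ hqn
    omega
  set X : ℕ := (S + 1) * q with hX
  -- `N ^ G ≤ (4n)^G * N * X ^ G`
  have h1 : N ^ G ≤ (4 * n) ^ G * N * X ^ G := by
    calc N ^ G ≤ (4 * n * m * q) ^ G := Nat.pow_le_pow_left hN4 _
      _ = (4 * n) ^ G * q ^ G * m ^ G := by rw [mul_pow, mul_pow (4 * n) m]; ring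
      _ ≤ (4 * n) ^ G * q ^ G * (m * (S + 1) ^ G) := Nat.mul_le_mul_left _ hkey
      _ ≤ (4 * n) ^ G * q ^ G * (N * (S + 1) ^ G) :=
          Nat.mul_le_mul_left _ (Nat.mul_le_mul_right _ hmN)
      _ = (4 * n) ^ G * N * X ^ G := by rw [hX, mul_pow (S + 1) q]; ring
  have h2 : N ^ ((k + 1) ^ 2) ≤ (4 * n) ^ G * X ^ G := by
    have h3 : N ^ G = N * N ^ ((k + 1) ^ 2) := by rw [hG, pow_succ]; ring
    have h4 : (4 * n) ^ G * N * X ^ G = N * ((4 * n) ^ G * X ^ G) := by ring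
    rw [h3, h4] at h1
    exact Nat.le_of_mul_le_mul_left h1 hNpos
  by_contra hcon
  have hcon' : X ^ (k + 1) < N ^ k := not_le.mp hcon
  have h3 : (N ^ ((k + 1) ^ 2)) ^ (k + 1) ≤ ((4 * n) ^ G * X ^ G) ^ (k + 1) :=
    Nat.pow_le_pow_left h2 _
  have h4 : ((4 * n) ^ G * X ^ G) ^ (k + 1) = (4 * n) ^ ((k + 1) * G) * (X ^ (k + 1)) ^ G := by
    rw [mul_pow, ← pow_mul, ← pow_mul, ← pow_mul, mul_comm G (k + 1)]
  have h5 : (X ^ (k + 1)) ^ G < (N ^ k) ^ G :=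
    Nat.pow_lt_pow_left hcon' (by rw [hG]; omega)
  have h6 : (4 * n) ^ ((k + 1) * G) * (X ^ (k + 1)) ^ G < N * (N ^ k) ^ G := by
    calc (4 * n) ^ ((k + 1) * G) * (X ^ (k + 1)) ^ G ≤ N * (X ^ (k + 1)) ^ G :=
          Nat.mul_le_mul_right _ hNb
      _ < N * (N ^ k) ^ G := Nat.mul_lt_mul_of_pos_left h5 hNpos
  have h7 : N * (N ^ k) ^ G ≤ (N ^ ((k + 1) ^ 2)) ^ (k + 1) := by
    rw [← pow_mul, ← pow_mul, ← pow_succ']
    apply Nat.pow_le_pow_right hNpos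
    rw [hG]
    nlinarith [sq_nonneg k]
  rw [h4] at h3
  omega

end Pool.Agent.H564R3.NR
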