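import Pool.Agent.H564R3.NR.Defs

/-!
Task E: the disjunction of copies of a monotone real program.
-/

set_option autoImplicit false

namespace Pool.Agent.H564R3.NR

open Pool.Agent.H564R3.PW (Pos pairs Arc var)
open Pool.Agent.H564R3.MR (HasClique)

section

variable {V ρ : Type} [DecidableEq ρ]

/-- renaming of the registers and inputs of the copy `j` -/
def e_ren {q : ℕ} (j : Fin q) : MR.Instr V ρ → MR.Instr (Fin q × V) (Option (Fin q × ρ))
  | .load i v => .load (some (j, i)) (j, v)
  | .app i f k l => .app (some (j, i)) f (some (j, k)) (some (j, l))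

theorem e_fold {q : ℕ} (j : Fin q) (w : Fin q × V → Bool) (p : List (MR.Instr V ρ)) :
    ∀ s : Option (Fin q × ρ) → ℝ,
      (∀ i, ((p.map (e_ren j)).foldl (fun v I => I.run w v) s) (some (j, i)) =
        (p.foldl (fun v I => I.run (fun x => w (j, x)) v) (fun i => s (some (j, i)))) i) ∧
      (∀ r, (∀ i, r ≠ some (j, i)) →
        ((p.map (e_ren j)).foldl (fun v I => I.run w v) s) r = s r) := by
  induction p with
  | nil => intro s; simp
  | cons I p ih =>
    intro s
    simp only [List.map_cons, List.foldl_cons]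
    have h1 : (fun i => ((e_ren j I).run w s) (some (j, i))) =
        I.run (fun x => w (j, x)) (fun i => s (some (j, i))) := by
      funext i
      cases I with
      | load i' v => simp [e_ren, MR.Instr.run, Function.update_apply]
      | app i' f k l => simp [e_ren, MR.Instr.run, Function.update_apply]
    have h2 : ∀ r, (∀ i, r ≠ some (j, i)) → (e_ren j I).run w s r = s r := by
      intro r hr
      cases I with
      | load i' v => simp [e_ren, MR.Instr.run, hr]
      | app i' f k l => simp [e_ren, MR.Instr.run, hr]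
    obtain ⟨h3, h4⟩ := ih ((e_ren j I).run w s)
    rw [h1] at h3
    exact ⟨h3, fun r hr => (h4 r hr).trans (h2 r hr)⟩

/-- the program of the copy `j`, followed by the update of the accumulator -/
noncomputable def e_block {q : ℕ} (p : List (MR.Instr V ρ)) (o : ρ) (j : Fin q) :
    List (MR.Instr (Fin q × V) (Option (Fin q × ρ))) :=
  p.map (e_ren j) ++ [.app none (fun a b => max a b) none (some (j, o))]

theorem e_block_fold {q : ℕ} (w : Fin q × V → Bool) (p : List (MR.Instr V ρ)) (o : ρ) (j : Fin q)
    (s : Option (Fin q × ρ) → ℝ) (hs : ∀ i, s (some (j, i)) = 0) :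
    ((e_block p o j).foldl (fun v I => I.run w v) s) none =
        max (s none) (MR.exec (fun x => w (j, x)) p o) ∧
      ∀ j', j' ≠ j → ∀ i, ((e_block p o j).foldl (fun v I => I.run w v) s) (some (j', i)) =
        s (some (j', i)) := by
  obtain ⟨h1, h2⟩ := e_fold j w p s
  unfold e_block
  rw [List.foldl_append, List.foldl_cons, List.foldl_nil]
  set T := (p.map (e_ren j)).foldl (fun v I => I.run w v) s with hT
  have hrun : MR.Instr.run w (.app none (fun a b => max a b) none (some (j, o))) T =
      Function.update T none (max (T none) (T (some (j, o)))) := rfl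
  rw [hrun]
  constructor
  · rw [Function.update_self, h1, h2 none (by simp)]
    have h3 : (fun i => s (some (j, i))) = fun _ => 0 := funext hs
    rw [h3]
    rfl
  · intro j' hj i
    rw [Function.update_of_ne (by simp)]
    exact h2 _ (by simp [hj])

theorem e_list {q : ℕ} (G : (V → Bool) → Prop) (w : Fin q × V → Bool) (p : List (MR.Instr V ρ))
    (o : ρ) (ho : ∀ w : V → Bool, (G w → MR.exec w p o = 1) ∧ (¬ G w → MR.exec w p o = 0))
    (L : List (Fin q)) (hL : L.Nodup) : ∀ s : Option (Fin q × ρ) → ℝ,
      (∀ j ∈ L, ∀ i, s (some (j, i)) = 0) → (s none = 0 ∨ s none = 1) →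
      (((s none = 1 ∨ ∃ j ∈ L, G fun v => w (j, v)) →
        ((L.flatMap (e_block p o)).foldl (fun v I => I.run w v) s) none = 1) ∧
      ((s none = 0 ∧ ∀ j ∈ L, ¬ G fun v => w (j, v)) →
        ((L.flatMap (e_block p o)).foldl (fun v I => I.run w v) s) none = 0)) := by
  induction L with
  | nil =>
    intro s _ _
    simp
  | cons j L ih =>
    intro s hs hs0
    rw [List.nodup_cons] at hL
    rw [List.flatMap_cons, List.foldl_append]
    obtain ⟨h1, h2⟩ := e_block_fold w p o j s (hs j (List.mem_cons_self))
    set s' := (e_block p o j).foldl (fun v I => I.run w v) s with hs'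
    have h3 : ∀ j' ∈ L, ∀ i, s' (some (j', i)) = 0 := by
      intro j' hj' i
      have hne : j' ≠ j := fun h => hL.1 (h ▸ hj')
      rw [h2 j' hne i]
      exact hs j' (List.mem_cons_of_mem _ hj') i
    by_cases hG : G fun v => w (j, v)
    · have h4 : s' none = 1 := by
        rw [h1, (ho _).1 hG]
        rcases hs0 with h | h <;> rw [h] <;> norm_num
      obtain ⟨h5, h6⟩ := ih hL.2 s' h3 (Or.inr h4)
      refine ⟨fun _ => h5 (Or.inl h4), ?_⟩
      rintro ⟨_, h7⟩
      exact absurd hG (h7 j (List.mem_cons_self))
    · have h4 : s' none = s none := by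
        rw [h1, (ho _).2 hG]
        rcases hs0 with h | h <;> rw [h] <;> norm_num
      obtain ⟨h5, h6⟩ := ih hL.2 s' h3 (by rw [h4]; exact hs0)
      refine ⟨?_, ?_⟩
      · rintro (h | ⟨j', hj', hG'⟩)
        · exact h5 (Or.inl (h4.trans h))
        · rcases List.mem_cons.1 hj' with rfl | hj'
          · exact absurd hG' hG
          · exact h5 (Or.inr ⟨j', hj', hG'⟩)
      · rintro ⟨h, h7⟩
        exact h6 ⟨h4.trans h, fun j' hj' => h7 j' (List.mem_cons_of_mem _ hj')⟩

end

theorem or_prog {V ρ : Type} [Fintype ρ] [DecidableEq ρ] (G : (V → Bool) → Prop) (q : ℕ)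
    (p : List (MR.Instr V ρ)) (o : ρ)
    (hp : ∀ (i : ρ) (f : ℝ → ℝ → ℝ) (j' l : ρ), MR.Instr.app i f j' l ∈ p →
      f = (fun a b => min a b) ∨ f = (fun a b => max a b) ∨ f = (fun _ _ => 0) ∨
        f = (fun _ _ => 1))
    (ho : ∀ w : V → Bool, (G w → MR.exec w p o = 1) ∧ (¬ G w → MR.exec w p o = 0)) :
    ∃ p' : List (MR.Instr (Fin q × V) (Option (Fin q × ρ))),
      (∀ (i : Option (Fin q × ρ)) (f : ℝ → ℝ → ℝ) (j' l : Option (Fin q × ρ)),
        MR.Instr.app i f j' l ∈ p' →
        f = (fun a b => min a b) ∨ f = (fun a b => max a b) ∨ f = (fun _ _ => 0) ∨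
          f = (fun _ _ => 1)) ∧
      (∀ w : Fin q × V → Bool, (OrCopies q G w → MR.exec w p' none = 1) ∧
        (¬ OrCopies q G w → MR.exec w p' none = 0)) ∧
      p'.length = q * (p.length + 1) := by
  refine ⟨(List.finRange q).flatMap (e_block p o), ?_, ?_, ?_⟩
  · intro i f j' l hm
    rw [List.mem_flatMap] at hm
    obtain ⟨j, _, hm⟩ := hm
    unfold e_block at hm
    rw [List.mem_append] at hm
    rcases hm with hm | hm
    · rw [List.mem_map] at hm
      obtain ⟨I, hI, he⟩ := hm
      cases I with
      | load i' v => simp [e_ren] at he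
      | app i' f' k' l' =>
        simp only [e_ren, MR.Instr.app.injEq] at he
        obtain ⟨_, rfl, _, _⟩ := he
        exact hp _ _ _ _ hI
    · rw [List.mem_singleton] at hm
      simp only [MR.Instr.app.injEq] at hm
      right; left; exact hm.2.1
  · intro w
    obtain ⟨h1, h2⟩ := e_list G w p o ho (List.finRange q) (List.nodup_finRange q) (fun _ => 0)
      (fun _ _ _ => rfl) (Or.inl rfl)
    refine ⟨?_, ?_⟩
    · rintro ⟨j, hj⟩
      exact h1 (Or.inr ⟨j, List.mem_finRange j, hj⟩)
    · intro h
      exact h2 ⟨rfl, fun j _ hG => h ⟨j, hG⟩⟩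
  · have h : ∀ L : List (Fin q), (L.flatMap (e_block p o)).length = L.length * (p.length + 1) := by
      intro L
      induction L with
      | nil => simp
      | cons j L ih =>
        rw [List.flatMap_cons, List.length_append, ih]
        simp only [e_block, List.length_append, List.length_map, List.length_cons,
          List.length_nil]
        ring
    rw [h, List.length_finRange]

end Pool.Agent.H564R3.NR
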