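import Pool.Agent.H564R3.NR.Defs

/-! Task D: projection of chained cliques to reachability. -/

set_option autoImplicit false

namespace Pool.Agent.H564R3.NR

open Pool.Agent.H564R3.PW (Pos pairs Arc var)
open Pool.Agent.H564R3.MR (HasClique)

section D

variable {N n q m : ℕ}

/-- the numbering of the vertices of the blocks -/
def D_E (q n m : ℕ) : (Fin q × Fin n) × Fin m ≃ Fin (q * n * m) :=
  (Equiv.prodCongr finProdFinEquiv (Equiv.refl (Fin m))).trans finProdFinEquiv

/-- the vertex of the graph -/
def D_enc (hN : q * n * m + 2 ≤ N) (j : Fin q) (l : Fin n) (a : Fin m) : Fin N :=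
  ⟨2 + (D_E q n m ((j, l), a)).val, by have := (D_E q n m ((j, l), a)).isLt; omega⟩

theorem D_enc_inj (hN : q * n * m + 2 ≤ N) {j j' : Fin q} {l l' : Fin n} {a a' : Fin m}
    (h : D_enc hN j l a = D_enc hN j' l' a') : j = j' ∧ l = l' ∧ a = a' := by
  have h1 : (D_E q n m ((j, l), a)).val = (D_E q n m ((j', l'), a')).val := by
    have := congrArg Fin.val h
    simp only [D_enc] at this
    omega
  have h2 := (D_E q n m).injective (Fin.ext h1)
  simp only [Prod.mk.injEq] at h2
  exact ⟨h2.1.1, h2.1.2, h2.2⟩

theorem D_enc_ge (hN : q * n * m + 2 ≤ N) (j : Fin q) (l : Fin n) (a : Fin m) :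
    2 ≤ (D_enc hN j l a).val := by
  simp only [D_enc]; omega

/-- the arc of the graph comes from the variable -/
def D_isVar (hN : q * n * m + 2 ≤ N) (e : Fin N × Fin N) (y : Fin q × Arc 1 n m) : Prop :=
  y.2.1.1.2.val + 1 = y.2.2.1.2.val ∧ e.1 = D_enc hN y.1 y.2.1.1.2 y.2.1.2 ∧
    e.2 = D_enc hN y.1 y.2.2.1.2 y.2.2.2

/-- the arc of the graph is always there -/
def D_isOne (hN : q * n * m + 2 ≤ N) (e : Fin N × Fin N) : Prop :=
  (e.1.val = 0 ∧ ∃ (j : Fin q) (l : Fin n) (a : Fin m), l.val = 0 ∧ e.2 = D_enc hN j l a) ∨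
  (e.2.val = 1 ∧ ∃ (j : Fin q) (l : Fin n) (a : Fin m), l.val + 1 = n ∧ e.1 = D_enc hN j l a)

open Classical in
/-- the graph -/
noncomputable def D_graph (hN : q * n * m + 2 ≤ N) (w : Fin q × Arc 1 n m → Bool)
    (e : Fin N × Fin N) : Bool :=
  if h : ∃ y, D_isVar hN e y then w h.choose else decide (D_isOne hN e)

open Classical in
/-- the transformed instruction -/
noncomputable def D_tr {ρ : Type} (hN : q * n * m + 2 ≤ N) :
    NInstr (Fin N × Fin N) ρ → NInstr (Fin q × Arc 1 n m) ρ
  | .load i e => if h : ∃ y, D_isVar hN e y then .load i h.choose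
      else if D_isOne hN e then .app i (fun _ _ => 1) i i else .app i (fun _ _ => 0) i i
  | .app i f j l => .app i f j l
  | .neg i θ j => .neg i θ j

theorem D_isVar_unique (hN : q * n * m + 2 ≤ N) {e : Fin N × Fin N} {y y' : Fin q × Arc 1 n m}
    (h : D_isVar hN e y) (h' : D_isVar hN e y') : y = y' := by
  obtain ⟨j, ⟨⟨c, l⟩, a⟩, ⟨⟨d, k⟩, b⟩⟩ := y
  obtain ⟨j', ⟨⟨c', l'⟩, a'⟩, ⟨⟨d', k'⟩, b'⟩⟩ := y'
  obtain ⟨_, h2, h3⟩ := h
  obtain ⟨_, h2', h3'⟩ := h'
  obtain ⟨r1, r2, r3⟩ := D_enc_inj hN (h2.symm.trans h2')
  obtain ⟨_, r5, r6⟩ := D_enc_inj hN (h3.symm.trans h3')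
  simp only at r1 r2 r3 r5 r6
  subst r1 r2 r3 r5 r6
  have hc : c = c' := Subsingleton.elim _ _
  have hd : d = d' := Subsingleton.elim _ _
  subst hc hd
  rfl

theorem D_graph_spec (hN : q * n * m + 2 ≤ N) (w : Fin q × Arc 1 n m → Bool)
    (e : Fin N × Fin N) :
    D_graph hN w e = true ↔ (∃ y, D_isVar hN e y ∧ w y = true) ∨ D_isOne hN e := by
  classical
  unfold D_graph
  by_cases h : ∃ y, D_isVar hN e y
  · rw [dif_pos h]
    constructor
    · intro hw
      exact Or.inl ⟨_, h.choose_spec, hw⟩
    · rintro (⟨y, hy, hw⟩ | h1)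
      · rw [D_isVar_unique hN h.choose_spec hy]; exact hw
      · exfalso
        obtain ⟨y, hy⟩ := h
        obtain ⟨_, h2, h3⟩ := hy
        have g1 := D_enc_ge hN y.1 y.2.1.1.2 y.2.1.2
        have g2 := D_enc_ge hN y.1 y.2.2.1.2 y.2.2.2
        rw [← h2] at g1
        rw [← h3] at g2
        rcases h1 with h1 | h1
        · have := h1.1; omega
        · have := h1.1; omega
  · rw [dif_neg h]
    constructor
    · intro hw
      exact Or.inr (by simpa using hw)
    · rintro (⟨y, hy, hw⟩ | h1)
      · exact absurd ⟨y, hy⟩ h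
      · simpa using h1

theorem D_run {ρ : Type} [DecidableEq ρ] (hN : q * n * m + 2 ≤ N)
    (w : Fin q × Arc 1 n m → Bool) (I : NInstr (Fin N × Fin N) ρ) (v : ρ → ℝ) :
    (D_tr hN I).run w v = I.run (D_graph hN w) v := by
  classical
  cases I with
  | load i e =>
    unfold D_tr D_graph
    by_cases h : ∃ y, D_isVar hN e y
    · simp only [dif_pos h, NInstr.run]
    · simp only [dif_neg h, NInstr.run]
      by_cases h1 : D_isOne hN e
      · simp [h1, NInstr.run]
      · simp [h1, NInstr.run]
  | app i f j l => rfl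
  | neg i θ j => rfl

theorem D_conn (hn : 1 ≤ n) (hN : q * n * m + 2 ≤ N) (hN2 : 2 ≤ N)
    (w : Fin q × Arc 1 n m → Bool) :
    StConn hN2 (D_graph hN w) ↔ OrCopies q (HasClique (k := 1) (n := n) (m := m)) w := by
  constructor
  · intro h
    have key : ∀ x : Fin N, Relation.ReflTransGen
        (fun u v : Fin N => D_graph hN w (u, v) = true) ⟨0, by omega⟩ x →
        OrCopies q (HasClique (k := 1) (n := n) (m := m)) w ∨ x.val = 0 ∨
          ∃ (j : Fin q) (l : Fin n) (a : Fin m), x = D_enc hN j l a ∧
            ∃ φ : Fin n → Fin m, φ l = a ∧ ∀ l1 l2 : Fin n, l1.val + 1 = l2.val → l2 ≤ l →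
              w (j, (((0, l1), φ l1), ((0, l2), φ l2))) = true := by
      intro x hx
      induction hx with
      | refl => exact Or.inr (Or.inl rfl)
      | @tail b c hb hbc ih =>
        rcases ih with ih | ih
        · exact Or.inl ih
        rw [D_graph_spec] at hbc
        rcases hbc with ⟨y, ⟨hy1, hy2, hy3⟩, hw⟩ | h1
        · obtain ⟨j, ⟨⟨c0, l⟩, a⟩, ⟨⟨d0, k⟩, b0⟩⟩ := y
          simp only at hy1 hy2 hy3
          have hc0 : c0 = 0 := Subsingleton.elim _ _
          have hd0 : d0 = 0 := Subsingleton.elim _ _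
          subst hc0 hd0
          rcases ih with ih | ⟨j', l', a', hx, φ, hφ, hφ2⟩
          · have := D_enc_ge hN j l a
            rw [← hy2] at this
            omega
          · rw [hy2] at hx
            obtain ⟨r1, r2, r3⟩ := D_enc_inj hN hx
            subst r1 r2 r3
            refine Or.inr (Or.inr ⟨j, k, b0, hy3, Function.update φ k b0, by simp, ?_⟩)
            intro l1 l2 h12 h2
            by_cases hk : l2 = k
            · subst hk
              have hl1 : l1 = l := by apply Fin.ext; omega
              subst hl1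
              have hne : l1 ≠ l2 := by intro hh; rw [hh] at h12; omega
              rw [Function.update_of_ne hne, Function.update_self, hφ]
              exact hw
            · have hle : l2 ≤ l := by
                have h2' : l2.val ≤ k.val := h2
                have : l2.val ≠ k.val := fun hh => hk (Fin.ext hh)
                show l2.val ≤ l.val
                omega
              have hne : l1 ≠ k := by
                intro hh
                have h2' : l2.val ≤ k.val := h2
                rw [hh] at h12; omega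
              rw [Function.update_of_ne hne, Function.update_of_ne hk]
              exact hφ2 l1 l2 h12 hle
        · rcases h1 with ⟨h1, j, l, a, hl, hc⟩ | ⟨h1, j, l, a, hl, hc⟩
          · refine Or.inr (Or.inr ⟨j, l, a, hc, fun _ => a, rfl, ?_⟩)
            intro l1 l2 h12 h2
            exfalso
            have h2' : l2.val ≤ l.val := h2
            omega
          · rcases ih with ih | ⟨j', l', a', hx, φ, hφ, hφ2⟩
            · have := D_enc_ge hN j l a
              rw [← hc] at this
              simp only at this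
              omega
            · simp only at hc
              rw [hc] at hx
              obtain ⟨r1, r2, r3⟩ := D_enc_inj hN hx
              subst r1 r2 r3
              refine Or.inl ⟨j, fun pos => φ pos.2, ?_⟩
              intro e he
              obtain ⟨⟨c0, l1⟩, ⟨d0, l2⟩⟩ := e
              have hc0 : c0 = 0 := Subsingleton.elim _ _
              have hd0 : d0 = 0 := Subsingleton.elim _ _
              subst hc0 hd0
              simp only [pairs, Finset.mem_filter, Finset.mem_univ, true_and] at he
              rcases he with ⟨_, he⟩ | he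
              · exact absurd he (lt_irrefl _)
              · simp only [var]
                exact hφ2 l1 l2 he (by show l2.val ≤ l.val; omega)
    rcases key _ h with h1 | h1 | ⟨j, l, a, h1, _⟩
    · exact h1
    · simp at h1
    · have := D_enc_ge hN j l a
      rw [← h1] at this
      simp at this
  · rintro ⟨j, φ, hφ⟩
    have step : ∀ l : ℕ, ∀ hl : l < n, Relation.ReflTransGen
        (fun u v : Fin N => D_graph hN w (u, v) = true) ⟨0, by omega⟩
        (D_enc hN j ⟨l, hl⟩ (φ (0, ⟨l, hl⟩))) := by
      intro l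
      induction l with
      | zero =>
        intro hl
        apply Relation.ReflTransGen.single
        rw [D_graph_spec]
        exact Or.inr (Or.inl ⟨rfl, j, ⟨0, hl⟩, _, rfl, rfl⟩)
      | succ l ih =>
        intro hl
        refine Relation.ReflTransGen.tail (ih (by omega)) ?_
        rw [D_graph_spec]
        refine Or.inl ⟨(j, (((0, ⟨l, by omega⟩), φ (0, ⟨l, by omega⟩)),
          ((0, ⟨l + 1, hl⟩), φ (0, ⟨l + 1, hl⟩)))), ⟨rfl, rfl, rfl⟩, ?_⟩
        have := hφ ((0, ⟨l, by omega⟩), (0, ⟨l + 1, hl⟩)) (by simp [pairs])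
        simpa [var] using this
    unfold StConn
    refine Relation.ReflTransGen.tail (step (n - 1) (by omega)) ?_
    rw [D_graph_spec]
    exact Or.inr (Or.inr ⟨rfl, j, ⟨n - 1, by omega⟩, _, by simp; omega, rfl⟩)

end D

theorem st_proj {N n q m : ℕ} (hn : 1 ≤ n) (hN : q * n * m + 2 ≤ N) (hN2 : 2 ≤ N) {ρ : Type}
    [DecidableEq ρ] (p : List (NInstr (Fin N × Fin N) ρ)) (hp : NIsMono p) (o : ρ)
    (ho : NDecides (StConn hN2) p o) :
    ∃ p' : List (NInstr (Fin q × Arc 1 n m) ρ), NIsMono p' ∧
      NDecides (OrCopies q (HasClique (k := 1) (n := n) (m := m))) p' o ∧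
      negs p' = negs p ∧ p'.length = p.length := by
  classical
  refine ⟨p.map (D_tr hN), ?_, ?_, ?_, by simp⟩
  · intro i f j l hmem a a' b b' ha hb
    rw [List.mem_map] at hmem
    obtain ⟨I, hI, hIe⟩ := hmem
    cases I with
    | load i' e =>
      unfold D_tr at hIe
      by_cases h : ∃ y, D_isVar hN e y
      · simp only [dif_pos h] at hIe
        exact absurd hIe (by simp)
      · simp only [dif_neg h] at hIe
        by_cases h1 : D_isOne hN e
        · rw [if_pos h1] at hIe
          simp only [NInstr.app.injEq] at hIe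
          rw [← hIe.2.1]
        · rw [if_neg h1] at hIe
          simp only [NInstr.app.injEq] at hIe
          rw [← hIe.2.1]
    | app i' f' j' l' =>
      simp only [D_tr, NInstr.app.injEq] at hIe
      obtain ⟨r1, r2, r3, r4⟩ := hIe
      subst r1 r2 r3 r4
      exact hp _ _ _ _ hI a a' b b' ha hb
    | neg i' θ j' =>
      simp [D_tr] at hIe
  · intro w
    have hexec : nexec w (p.map (D_tr hN)) = nexec (D_graph hN w) p := by
      unfold nexec
      rw [List.foldl_map]
      congr 1
      funext v I
      exact D_run hN w I v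
    rw [hexec, ← D_conn hn hN hN2 w]
    exact ho (D_graph hN w)
  · unfold negs
    rw [List.countP_map]
    apply List.countP_congr
    intro I _
    cases I with
    | load i e =>
      simp only [Function.comp, D_tr]
      by_cases h : ∃ y, D_isVar hN e y
      · simp only [dif_pos h, NInstr.isNeg]
      · simp only [dif_neg h]
        by_cases h1 : D_isOne hN e
        · simp only [if_pos h1, NInstr.isNeg]
        · simp only [if_neg h1, NInstr.isNeg]
    | app i f j l => simp [D_tr, NInstr.isNeg]
    | neg i θ j => simp [D_tr, NInstr.isNeg]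

end Pool.Agent.H564R3.NR
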