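import Pool.Agent.H564R3.NR.Defs

/-! Stubs (statements only): every theorem goes to its own file, see `h564d_tasks`. -/

set_option autoImplicit false

namespace Pool.Agent.H564R3.NR

open Pool.Agent.H564R3.PW (Pos pairs Arc var)
open Pool.Agent.H564R3.MR (HasClique)

/-! ### A (Vec.lean) -/
section

variable {X ρ : Type} [DecidableEq ρ]

/-- the outcomes of the tests `θ ≤ register` of the negations, in order, from the contents `v` -/
noncomputable def vecs (w : X → Bool) : List (NInstr X ρ) → (ρ → ℝ) → List Bool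
  | [], _ => []
  | I :: p, v =>
    (match I with
      | .load _ _ => []
      | .app _ _ _ _ => []
      | .neg _ θ j => [decide (θ ≤ v j)]) ++ vecs w p (I.run w v)

/-- binary value of a list of bits, most significant first -/
def rk (l : List Bool) : ℕ := l.foldl (fun a b => 2 * a + b.toNat) 0

theorem length_vecs (w : X → Bool) (p : List (NInstr X ρ)) (v : ρ → ℝ) :
    (vecs w p v).length = negs p := by
  sorry

theorem rk_lt (l : List Bool) : rk l < 2 ^ l.length := by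
  sorry

/-- larger inputs have lexicographically larger vectors of tests -/
theorem vecs_mono (p : List (NInstr X ρ)) (hp : NIsMono p) (w w' : X → Bool)
    (hw : ∀ x, w x = true → w' x = true) (v v' : ρ → ℝ) (hv : ∀ i, v i ≤ v' i) :
    vecs w p v = vecs w' p v' ∨ rk (vecs w p v) < rk (vecs w' p v') := by
  sorry

/-! ### B (Chain.lean): uses A -/
/-- there is a block and a background on which the tests are frozen for all inputs without the
property -/
theorem frozen_block {V : Type} (G : (V → Bool) → Prop) (hG : ¬ G fun _ => false) (q : ℕ)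
    (p : List (NInstr (Fin q × V) ρ)) (hp : NIsMono p) (hq : 2 ^ negs p ≤ q) :
    ∃ (j : Fin q) (x : Fin q × V → Bool), (∀ v, x (j, v) = false) ∧
      (∀ i : Fin q, ¬ G fun v => x (i, v)) ∧
      ∀ y : V → Bool, ¬ G y →
        vecs (fun a => if a.1 = j then y a.2 else x a) p (fun _ => 0) =
          vecs x p (fun _ => 0) := by
  sorry

/-! ### C (Freeze.lean): uses B -/
theorem freeze {V : Type} (G : (V → Bool) → Prop) (hG : ¬ G fun _ => false) (q : ℕ)
    (p : List (NInstr (Fin q × V) ρ)) (hp : NIsMono p) (o : ρ)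
    (ho : NDecides (OrCopies q G) p o) (hq : 2 ^ negs p ≤ q) :
    ∃ p' : List (MR.Instr V (Option ρ)), MR.IsMono p' ∧
      (∀ w : V → Bool, (G w → MR.exec w p' none = 1) ∧ (¬ G w → MR.exec w p' none = 0)) ∧
      p'.length ≤ 2 * p.length + 1 := by
  sorry

end

/-! ### D (Proj.lean) -/
theorem st_proj {N n q m : ℕ} (hn : 1 ≤ n) (hN : q * n * m + 2 ≤ N) (hN2 : 2 ≤ N) {ρ : Type}
    [DecidableEq ρ] (p : List (NInstr (Fin N × Fin N) ρ)) (hp : NIsMono p) (o : ρ)
    (ho : NDecides (StConn hN2) p o) :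
    ∃ p' : List (NInstr (Fin q × Arc 1 n m) ρ), NIsMono p' ∧
      NDecides (OrCopies q (HasClique (k := 1) (n := n) (m := m))) p' o ∧
      negs p' = negs p ∧ p'.length = p.length := by
  sorry

/-! ### E (OrProg.lean) -/
theorem or_prog {V ρ : Type} [Fintype ρ] [DecidableEq ρ] (G : (V → Bool) → Prop) (q : ℕ)
    (p : List (MR.Instr V ρ)) (o : ρ)
    (hp : ∀ (i : ρ) (f : ℝ → ℝ → ℝ) (j' l : ρ), MR.Instr.app i f j' l ∈ p →
      f = (fun a b => min a b) ∨ f = (fun a b => max a b) ∨ f = (fun _ _ => 0) ∨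
        f = (fun _ _ => 1))
    (ho : ∀ w : V → Bool, (G w → MR.exec w p o = 1) ∧ (¬ G w → MR.exec w p o = 0)) :
    ∃ p' : List (MR.Instr (Fin q × V) (Option (Fin q × ρ))),
      (∀ (i : Option (Fin q × ρ)) (f : ℝ → ℝ → ℝ) (j' l : Option (Fin q × ρ)),
        MR.Instr.app i f j' l ∈ p' →
        f = (fun a b => min a b) ∨ f = (fun a b => max a b) ∨ f = (fun _ _ => 0) ∨
          f = (fun _ _ => 1)) ∧
      (∀ w : Fin q × V → Bool, (OrCopies q G w → MR.exec w p' none = 1) ∧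
        (¬ OrCopies q G w → MR.exec w p' none = 0)) ∧
      p'.length = q * (p.length + 1) := by
  sorry

/-! ### F (NumSt.lean) -/
theorem num_st (g n : ℕ) (hg : 1 ≤ g) (hn : 1 ≤ n) (m₀ : ℕ) : ∃ N₀ : ℕ, ∀ N ≥ N₀, ∀ q S T : ℕ,
    1 ≤ q → 1 ≤ S → T ≤ N ^ g →
    (∀ m ≥ m₀, q * n * m + 2 ≤ N → 2 * T + 1 ≤ m ^ (g ^ 2 + 1) →
      m ^ (g ^ 2 + 1) ≤ m * (S + 1) ^ (g ^ 2 + 1)) →
    N ^ g ≤ N * ((S + 1) * q) ^ g := by
  sorry

/-! ### H (NumF.lean) -/
theorem num_f (c g h n : ℕ) (hc : 1 ≤ c) (hg : 1 ≤ g) (hh : 1 ≤ h) (hn : 1 ≤ n) :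
    ∃ m₀ : ℕ, ∀ m ≥ m₀, ∀ N : ℕ, N = m ^ (2 * h) * (((2 * h + 3) * c + 2) * n * m) ^ 2 →
      (∀ t : ℕ, (2 ^ t) ^ h * N ≤ N ^ h → 2 ^ t ≤ m ^ (2 * h)) ∧
      (∀ T : ℕ, T ≤ N ^ g → 2 * T + 1 ≤ m ^ ((2 * h + 3) * g + 1)) ∧
      (∀ S : ℕ, m ^ (((2 * h + 3) * c + 2) * ((2 * h + 3) * g + 1)) ≤
        m * (S + 1) ^ ((2 * h + 3) * g + 1) → N ^ c < S) := by
  sorry

end Pool.Agent.H564R3.NR
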