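import Pool.Agent.H564R3.NR.Defs

/-! The vector of the tests of the negations grows lexicographically with the input. -/

set_option autoImplicit false

namespace Pool.Agent.H564R3.NR

section

variable {X ρ : Type} [DecidableEq ρ]

/-- the outcomes of the tests `θ ≤ register` of the negations, in order, from the contents `v` -/
noncomputable def vecs (w : X → Bool) : List (NInstr X ρ) → (ρ → ℝ) → List Bool
  | [], _ => []
  | I :: p, v =>
    (match I with
      | .load _ _ => []
      | .app _ _ _ _ => []
      | .neg _ θ j => [decide (θ ≤ v j)]) ++ vecs w p (I.run w v)

/-- binary value of a list of bits, most significant first -/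
def rk (l : List Bool) : ℕ := l.foldl (fun a b => 2 * a + b.toNat) 0

theorem A_foldl (l : List Bool) (a : ℕ) :
    l.foldl (fun a b => 2 * a + b.toNat) a = a * 2 ^ l.length + rk l := by
  induction l generalizing a with
  | nil => simp [rk]
  | cons b l ih =>
    rw [List.foldl_cons, ih]
    have h : rk (b :: l) = b.toNat * 2 ^ l.length + rk l := by
      unfold rk
      rw [List.foldl_cons, ih]
      simp [rk]
    rw [h, List.length_cons, pow_succ]
    ring

theorem rk_cons (b : Bool) (l : List Bool) : rk (b :: l) = b.toNat * 2 ^ l.length + rk l := by
  have := A_foldl l b.toNat
  unfold rk
  rw [List.foldl_cons]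
  simpa [rk] using this

theorem length_vecs (w : X → Bool) (p : List (NInstr X ρ)) (v : ρ → ℝ) :
    (vecs w p v).length = negs p := by
  induction p generalizing v with
  | nil => simp [vecs, negs]
  | cons I p ih =>
    have h := ih (I.run w v)
    cases I with
    | load i x => simpa [vecs, negs, NInstr.isNeg] using h
    | app i f j l => simpa [vecs, negs, NInstr.isNeg] using h
    | neg i θ j =>
      simp only [vecs, negs, List.length_append, List.length_cons, List.length_nil] at h ⊢
      rw [List.countP_cons_of_pos (by simp [NInstr.isNeg])]
      rw [h]
      omega

theorem rk_lt (l : List Bool) : rk l < 2 ^ l.length := by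
  induction l with
  | nil => simp [rk]
  | cons b l ih =>
    rw [rk_cons, List.length_cons, pow_succ]
    have : b.toNat ≤ 1 := Bool.toNat_le b
    have h2 : b.toNat * 2 ^ l.length ≤ 1 * 2 ^ l.length := Nat.mul_le_mul_right _ this
    omega

/-- larger inputs have lexicographically larger vectors of tests -/
theorem vecs_mono (p : List (NInstr X ρ)) (hp : NIsMono p) (w w' : X → Bool)
    (hw : ∀ x, w x = true → w' x = true) (v v' : ρ → ℝ) (hv : ∀ i, v i ≤ v' i) :
    vecs w p v = vecs w' p v' ∨ rk (vecs w p v) < rk (vecs w' p v') := by
  induction p generalizing v v' with
  | nil => exact Or.inl rfl
  | cons I p ih =>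
    have hp' : NIsMono p := fun i f j l h => hp i f j l (List.mem_cons_of_mem _ h)
    cases I with
    | load i x =>
      refine ih hp' _ _ ?_
      intro a
      simp only [NInstr.run]
      by_cases ha : a = i
      · subst ha
        rw [Function.update_self, Function.update_self]
        by_cases hx : w x = true
        · rw [if_pos hx, if_pos (hw x hx)]
        · rw [if_neg hx]
          split_ifs <;> norm_num
      · rw [Function.update_of_ne ha, Function.update_of_ne ha]
        exact hv a
    | app i f j l =>
      refine ih hp' _ _ ?_
      intro a
      simp only [NInstr.run]
      by_cases ha : a = i
      · subst ha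
        rw [Function.update_self, Function.update_self]
        exact hp a f j l (by simp) _ _ _ _ (hv j) (hv l)
      · rw [Function.update_of_ne ha, Function.update_of_ne ha]
        exact hv a
    | neg i θ j =>
      simp only [vecs, List.singleton_append]
      rw [rk_cons, rk_cons, length_vecs, length_vecs]
      by_cases h1 : θ ≤ v j
      · have h2 : θ ≤ v' j := h1.trans (hv j)
        have := ih hp' ((NInstr.neg i θ j).run w v) ((NInstr.neg i θ j).run w' v') ?_
        · rcases this with h | h
          · left
            rw [h]
            simp [h1, h2]
          · right
            simp only [h1, h2, decide_true, Bool.toNat_true]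
            omega
        · intro a
          simp only [NInstr.run]
          by_cases ha : a = i
          · subst ha
            rw [Function.update_self, Function.update_self, if_neg (not_lt.2 h1),
              if_neg (not_lt.2 h2)]
          · rw [Function.update_of_ne ha, Function.update_of_ne ha]
            exact hv a
      · by_cases h2 : θ ≤ v' j
        · right
          have h3 := rk_lt (vecs w p ((NInstr.neg i θ j).run w v))
          rw [length_vecs] at h3
          simp only [h1, h2, decide_true, decide_false, Bool.toNat_true, Bool.toNat_false]
          omega
        · have := ih hp' ((NInstr.neg i θ j).run w v) ((NInstr.neg i θ j).run w' v') ?_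
          · rcases this with h | h
            · left
              rw [h]
              simp [h1, h2]
            · right
              simp only [h1, h2, decide_false, Bool.toNat_false]
              omega
          · intro a
            simp only [NInstr.run]
            by_cases ha : a = i
            · subst ha
              rw [Function.update_self, Function.update_self, if_pos (not_le.1 h1),
                if_pos (not_le.1 h2)]
            · rw [Function.update_of_ne ha, Function.update_of_ne ha]
              exact hv a

end

end Pool.Agent.H564R3.NR
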